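import Mathlib

namespace Pool.Agent.Results.MP_bbacab_nt.Full

open Finset

/-- products of `N` elements of `D` -/
def M (D : Finset ℕ) : ℕ → Finset ℕ
  | 0 => {1}
  | N + 1 => (D ×ˢ M D N).image fun p => p.1 * p.2

theorem M_card (D : Finset ℕ) (N : ℕ) : (M D N).card ≤ (N + 1) ^ D.card := by
  have : M D N ⊆ (Fintype.piFinset fun _ : D => range (N + 1)).image
      fun e => ∏ d : D, (d : ℕ) ^ e d := by
    induction N with
    | zero => intro n hn; simp only [M, mem_singleton] at hn
              exact mem_image.2 ⟨fun _ => 0, by simp, by simp [hn]⟩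
    | succ N ih =>
      intro n hn
      obtain ⟨⟨d, m⟩, hp, rfl⟩ := mem_image.1 hn
      obtain ⟨hd, hm⟩ := mem_product.1 hp
      obtain ⟨e, he, rfl⟩ := mem_image.1 (ih hm)
      refine mem_image.2 ⟨fun i => e i + if i = ⟨d, hd⟩ then 1 else 0, ?_, ?_⟩
      · rw [Fintype.mem_piFinset] at he ⊢
        intro i; have := he i; rw [mem_range] at this ⊢; split_ifs <;> omega
      · simp only [pow_add, prod_mul_distrib, pow_ite, pow_one, pow_zero, prod_ite_eq', mem_univ,
          if_true]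
        ring
  refine (card_le_card this).trans (card_image_le.trans ?_)
  simp

theorem M_prop (D : Finset ℕ) (Q : ℕ) (hD : ∀ d ∈ D, 1 < d ∧ Nat.Coprime d Q) (N : ℕ) :
    ∀ n ∈ M D N, 0 < n ∧ Nat.Coprime n Q := by
  induction N with
  | zero => intro n hn; simp only [M, mem_singleton] at hn; simp [hn]
  | succ N ih =>
    intro n hn
    obtain ⟨⟨d, m⟩, hp, rfl⟩ := mem_image.1 hn
    obtain ⟨hd, hm⟩ := mem_product.1 hp
    exact ⟨Nat.mul_pos (by have := (hD d hd).1; omega) (ih m hm).1,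
      Nat.Coprime.mul_left (hD d hd).2 (ih m hm).2⟩

theorem grow (a : ℕ → ℕ) (h1 : a 1 = 1)
    (ha : ∀ n, 2 ≤ n → a n = 1 + ∑ m ∈ n.properDivisors, a m)
    (D : Finset ℕ) (hD : ∀ d ∈ D, 1 < d) (N : ℕ) :
    (∑ d ∈ D, (1 : ℝ) / d) ^ N ≤ ∑ n ∈ M D N, (a n : ℝ) / n := by
  induction N with
  | zero => simp [M, h1]
  | succ N ih =>
    have hp := fun n hn => (M_prop D 1 (fun d hd => ⟨hD d hd, by simp⟩) N n hn).1
    calc _ ≤ (∑ d ∈ D, (1 : ℝ) / d) * ∑ n ∈ M D N, (a n : ℝ) / n := by
          rw [pow_succ']; gcongr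
      _ = ∑ p ∈ D ×ˢ M D N, (a p.2 : ℝ) / (p.1 * p.2 : ℕ) := by
          rw [sum_mul_sum, sum_product]
          refine sum_congr rfl fun d _ => sum_congr rfl fun n _ => ?_
          push_cast; rw [div_mul_div_comm, one_mul]
      _ = ∑ n ∈ M D (N + 1), ∑ p ∈ (D ×ˢ M D N).filter (fun p => p.1 * p.2 = n),
            (a p.2 : ℝ) / (p.1 * p.2 : ℕ) :=
          (sum_fiberwise_of_maps_to (fun p hp => mem_image_of_mem _ hp) _).symm
      _ ≤ _ := by
          refine sum_le_sum fun n hn => ?_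
          rw [sum_congr rfl (g := fun p => (a p.2 : ℝ) / n) fun p hp => by
            rw [(mem_filter.1 hp).2], ← sum_div]
          gcongr
          obtain ⟨⟨d, m⟩, hq, e⟩ := mem_image.1 hn
          obtain ⟨hd, hm⟩ := mem_product.1 hq
          have n2 : 2 ≤ n := by
            have := hD d hd; have := hp m hm; simp only at e; nlinarith
          rw [ha n n2, ← sum_image (s := (D ×ˢ M D N).filter (fun p => p.1 * p.2 = n))
            (g := Prod.snd) (f := fun m => (a m : ℝ))]
          · push_cast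
            refine le_add_of_nonneg_of_le zero_le_one (sum_le_sum_of_subset_of_nonneg ?_
              fun _ _ _ => by positivity)
            intro m hm
            obtain ⟨p, hq, rfl⟩ := mem_image.1 hm
            obtain ⟨hq, e⟩ := mem_filter.1 hq
            obtain ⟨hd, hm⟩ := mem_product.1 hq
            have := hD _ hd; have := hp _ hm
            exact Nat.mem_properDivisors.2 ⟨Dvd.intro_left _ e, by nlinarith⟩
          · intro p hq q hr e
            obtain ⟨hq, e1⟩ := mem_filter.1 hq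
            obtain ⟨hr, e2⟩ := mem_filter.1 hr
            have := hp _ (mem_product.1 hq).2
            refine Prod.ext (Nat.eq_of_mul_eq_mul_right this ?_) e
            rw [e1, e, e2]

theorem result (a : ℕ → ℕ) (h1 : a 1 = 1)
    (ha : ∀ n, 2 ≤ n → a n = 1 + ∑ m ∈ n.properDivisors, a m) (k : ℕ) :
    ∃ n, 0 < n ∧ n < a n ∧ Nat.Coprime n (∏ i ∈ range k, Nat.nth Nat.Prime i) := by
  set Q := ∏ i ∈ range k, Nat.nth Nat.Prime i
  have hQ : 0 < Q := prod_pos fun i _ => (Nat.prime_nth_prime i).pos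
  obtain ⟨J, hJ⟩ := ((Real.tendsto_sum_range_one_div_nat_succ_atTop).eventually
    (Filter.eventually_ge_atTop (4 * Q : ℝ))).exists
  set D := (range J).image fun j => Q * (j + 1) + 1
  have hD : ∀ d ∈ D, 1 < d ∧ Nat.Coprime d Q := by
    intro d hd
    obtain ⟨j, -, rfl⟩ := mem_image.1 hd
    exact ⟨Nat.succ_lt_succ (Nat.mul_pos hQ (Nat.succ_pos j)), by simp⟩
  have hs : 2 ≤ ∑ d ∈ D, (1 : ℝ) / d := by
    rw [sum_image fun i _ j _ e => by
      have := Nat.eq_of_mul_eq_mul_left hQ (Nat.succ_injective e); omega]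
    have q : (1 : ℝ) ≤ Q := by exact_mod_cast hQ
    calc (2 : ℝ) ≤ (∑ i ∈ range J, (1 : ℝ) / (i + 1)) / (2 * Q) := by
          rw [le_div_iff₀ (by positivity)]; linarith
      _ ≤ _ := by
          rw [sum_div]
          refine sum_le_sum fun i _ => ?_
          rw [div_div]; push_cast
          have : (0 : ℝ) ≤ i := by positivity
          gcongr; nlinarith
  by_contra h
  push Not at h
  obtain ⟨N, hN⟩ := ((tendsto_pow_const_div_const_pow_of_one_lt D.card (r := 2)
    (by norm_num)).eventually (gt_mem_nhds (show (0 : ℝ) < 1 / 2 by norm_num))).exists_forall_of_atTop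
  have e1 := hN (N + 1) (by omega)
  have e2 := grow a h1 ha D (fun d hd => (hD d hd).1) N
  have e3 : ∑ n ∈ M D N, (a n : ℝ) / n ≤ (M D N).card := by
    rw [card_eq_sum_ones]; push_cast
    refine sum_le_sum fun n hn => ?_
    obtain ⟨p1, p2⟩ := M_prop D Q hD N n hn
    rw [div_le_one (by exact_mod_cast p1)]
    exact_mod_cast not_lt.1 fun hh => h n p1 hh p2
  have e4 : ((M D N).card : ℝ) ≤ ((N + 1 : ℕ) : ℝ) ^ D.card := by exact_mod_cast M_card D N
  have e5 : (2 : ℝ) ^ N ≤ (∑ d ∈ D, (1 : ℝ) / d) ^ N := by gcongr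
  rw [div_lt_iff₀ (by positivity), pow_succ] at e1
  linarith

end Pool.Agent.Results.MP_bbacab_nt.Full
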